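import Pool.Agent.helper69.MU.Uni

set_option autoImplicit false

/-!
# A set of positive Haar measure becomes conull after finite changes
-/

namespace Pool.Agent.helper10.MU

open MeasureTheory Filter Pool.Agent.helper69.MU

section gen

variable {X : ℕ → Type}

/-- finite changes -/
def chg (i : Σ m : ℕ, ∀ l : Fin m, X l) (x : ∀ n, X n) : ∀ n, X n :=
  fun l => if h : l < i.1 then i.2 ⟨l, h⟩ else x l

theorem chg_of_le (i : Σ m : ℕ, ∀ l : Fin m, X l) (x : ∀ n, X n) {l : ℕ} (h : i.1 ≤ l) :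
    chg i x l = x l := by
  unfold chg
  rw [dif_neg (not_lt.2 h)]

theorem chg_of_lt (i : Σ m : ℕ, ∀ l : Fin m, X l) (x : ∀ n, X n) {l : ℕ} (h : l < i.1) :
    chg i x l = i.2 ⟨l, h⟩ := by
  unfold chg
  rw [dif_pos h]

/-- the set of points with a finite change in `C` -/
def hull (C : Set (∀ n, X n)) : Set (∀ n, X n) := {x | ∃ i : Σ m : ℕ, ∀ l : Fin m, X l, chg i x ∈ C}

theorem hull_eq (C : Set (∀ n, X n)) (m : ℕ) :
    hull C = ⋃ i : {i : Σ m : ℕ, ∀ l : Fin m, X l // m ≤ i.1}, chg i.1 ⁻¹' C := by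
  ext x
  rw [Set.mem_iUnion]
  show (∃ i : Σ m : ℕ, ∀ l : Fin m, X l, chg i x ∈ C) ↔ _
  constructor
  · rintro ⟨i, hi⟩
    refine ⟨⟨⟨max m i.1, fun l => chg i x l⟩, le_max_left _ _⟩, ?_⟩
    have e : chg (⟨max m i.1, fun l => chg i x l⟩ : Σ m : ℕ, ∀ l : Fin m, X l) x = chg i x := by
      funext l
      by_cases h : l < max m i.1
      · rw [chg_of_lt _ _ h]
      · rw [chg_of_le _ _ (not_lt.1 h), chg_of_le _ _ ((le_max_right m i.1).trans (not_lt.1 h))]
    show chg (⟨max m i.1, fun l => chg i x l⟩ : Σ m : ℕ, ∀ l : Fin m, X l) x ∈ C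
    rw [e]
    exact hi
  · rintro ⟨i, hi⟩
    exact ⟨i.1, hi⟩

theorem sub_hull (C : Set (∀ n, X n)) : C ⊆ hull C := by
  intro x hx
  refine ⟨⟨0, fun l => l.elim0⟩, ?_⟩
  have e : chg (⟨0, fun l => l.elim0⟩ : Σ m : ℕ, ∀ l : Fin m, X l) x = x := by
    funext l
    exact chg_of_le _ _ (Nat.zero_le l)
  rw [e]
  exact hx

variable [hX : ∀ n, MeasurableSpace (X n)]

theorem measurable_chg' (i : Σ m : ℕ, ∀ l : Fin m, X l) {m : ℕ} (hm : m ≤ i.1) :
    @Measurable _ _ (⨆ l ≥ m, MeasurableSpace.comap (fun x : ∀ n, X n => x l) (hX l))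
      MeasurableSpace.pi (chg i) := by
  rw [@measurable_pi_iff]
  intro l
  by_cases h : l < i.1
  · have e : (fun x : ∀ n, X n => chg i x l) = fun _ => i.2 ⟨l, h⟩ := by
      funext x
      exact chg_of_lt i x h
    rw [e]
    exact @measurable_const _ _ _ _ _
  · have e : (fun x : ∀ n, X n => chg i x l) = fun x => x l := by
      funext x
      exact chg_of_le i x (not_lt.1 h)
    rw [e]
    have h1 : @Measurable _ _ (MeasurableSpace.comap (fun x : ∀ n, X n => x l) (hX l)) (hX l)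
        (fun x : ∀ n, X n => x l) := comap_measurable _
    refine h1.mono ?_ le_rfl
    exact le_iSup₂_of_le l (hm.trans (not_lt.1 h)) le_rfl

theorem measurable_chg (i : Σ m : ℕ, ∀ l : Fin m, X l) : Measurable (chg i) := by
  refine (measurable_chg' i (Nat.zero_le _)).mono ?_ le_rfl
  refine iSup₂_le fun l _ => ?_
  exact (measurable_pi_apply l).comap_le

variable [∀ n, Countable (X n)]

theorem tail_hull {C : Set (∀ n, X n)} (hC : MeasurableSet C) :
    MeasurableSet[limsup (fun l => MeasurableSpace.comap (fun x : ∀ n, X n => x l) (hX l)) atTop]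
      (hull C) := by
  rw [limsup_eq_iInf_iSup_of_nat, MeasurableSpace.measurableSet_iInf]
  intro m
  rw [hull_eq C m]
  refine MeasurableSet.iUnion fun i => ?_
  exact measurable_chg' i.1 i.2 hC

theorem measurableSet_hull {C : Set (∀ n, X n)} (hC : MeasurableSet C) : MeasurableSet (hull C) := by
  rw [hull_eq C 0]
  refine MeasurableSet.iUnion fun i => ?_
  exact measurable_chg i.1 hC

theorem measure_hull {P : ∀ n, Measure (X n)} [∀ n, IsProbabilityMeasure (P n)] {C : Set (∀ n, X n)}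
    (hC : MeasurableSet C) (h0 : Measure.infinitePi P C ≠ 0) : ∀ᵐ x ∂(Measure.infinitePi P), x ∈ hull C := by
  have h1 : ProbabilityTheory.iIndepFun (fun (l : ℕ) (x : ∀ n, X n) => x l) (Measure.infinitePi P) :=
    ProbabilityTheory.iIndepFun_infinitePi (X := fun _ x => x) (fun _ => measurable_id)
  have h2 : ProbabilityTheory.iIndep
      (fun l => MeasurableSpace.comap (fun x : ∀ n, X n => x l) (hX l)) (Measure.infinitePi P) := h1
  have h3 := ProbabilityTheory.measure_zero_or_one_of_measurableSet_limsup_atTop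
    (fun l => (measurable_pi_apply l).comap_le) h2 (tail_hull hC)
  have h4 : Measure.infinitePi P (hull C) = 1 := by
    rcases h3 with h3 | h3
    · exact absurd (measure_mono_null (sub_hull C) h3) h0
    · exact h3
  exact (prob_compl_eq_zero_iff (measurableSet_hull hC)).2 h4

open Classical in
theorem exists_rho {P : ∀ n, Measure (X n)} [∀ n, IsProbabilityMeasure (P n)] {C : Set (∀ n, X n)}
    (hC : MeasurableSet C) (h0 : Measure.infinitePi P C ≠ 0) :
    ∃ ρ : (∀ n, X n) → ∀ n, X n, (∀ x, ∃ m, ∀ l, m ≤ l → ρ x l = x l) ∧ Measurable ρ ∧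
      ∀ᵐ x ∂(Measure.infinitePi P), ρ x ∈ C := by
  have : Nonempty (Σ m : ℕ, ∀ l : Fin m, X l) := ⟨⟨0, fun l => l.elim0⟩⟩
  obtain ⟨e, he⟩ := exists_surjective_nat (Σ m : ℕ, ∀ l : Fin m, X l)
  have hp : ∀ x : ∀ n, X n, ∃ k, chg (e k) x ∈ C ∨ x ∉ hull C := by
    intro x
    by_cases h : x ∈ hull C
    · obtain ⟨i, hi⟩ := h
      obtain ⟨k, rfl⟩ := he i
      exact ⟨k, Or.inl hi⟩
    · exact ⟨0, Or.inr h⟩
  refine ⟨fun x => (fun k (x : ∀ n, X n) => if x ∈ hull C then chg (e k) x else x) (Nat.find (hp x)) x,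
    fun x => ?_, ?_, ?_⟩
  · show ∃ m, ∀ l, m ≤ l → (if x ∈ hull C then chg (e (Nat.find (hp x))) x else x) l = x l
    by_cases h : x ∈ hull C
    · rw [if_pos h]
      exact ⟨_, fun l hl => chg_of_le _ _ hl⟩
    · rw [if_neg h]
      exact ⟨0, fun l _ => rfl⟩
  · refine Measurable.find (p := fun k x => chg (e k) x ∈ C ∨ x ∉ hull C)
      (f := fun k (x : ∀ n, X n) => if x ∈ hull C then chg (e k) x else x) (fun k => ?_) (fun k => ?_) hp
    · exact Measurable.ite (measurableSet_hull hC) (measurable_chg _) measurable_id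
    · exact (measurable_chg (e k) hC).union (measurableSet_hull hC).compl
  · filter_upwards [measure_hull hC h0] with x hx
    show (if x ∈ hull C then chg (e (Nat.find (hp x))) x else x) ∈ C
    rw [if_pos hx]
    rcases Nat.find_spec (hp x) with h | h
    · exact h
    · exact absurd hx h

end gen

theorem exists_rho_haar (C : Set PS)
    (hC : @MeasurableSet PS (@MeasurableSpace.pi ℕ (fun n => Equiv.Perm (Fin n)) fun _ => ⊤) C)
    (hC0 : hPS C ≠ 0) :
    ∃ ρ : PS → PS, (∀ x, ∃ m, ∀ l, m ≤ l → ρ x l = x l) ∧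
      (∀ (n : ℕ) (σ : Equiv.Perm (Fin n)),
        @MeasurableSet PS (@MeasurableSpace.pi ℕ (fun n => Equiv.Perm (Fin n)) fun _ => ⊤)
          {x | ρ x n = σ}) ∧
      ∀ᵐ x ∂hPS, ρ x ∈ C := by
  let _ : ∀ n : ℕ, MeasurableSpace (Equiv.Perm (Fin n)) := fun _ => ⊤
  have hprob : ∀ n : ℕ, IsProbabilityMeasure (uni (Equiv.Perm (Fin n))) := by
    intro n
    unfold uni
    infer_instance
  obtain ⟨ρ, h1, h2, h3⟩ := exists_rho (X := fun n => Equiv.Perm (Fin n))
    (P := fun n => uni (Equiv.Perm (Fin n))) hC hC0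
  refine ⟨ρ, h1, fun n σ => ?_, h3⟩
  have h4 : Measurable (fun x : PS => ρ x n) := (measurable_pi_apply n).comp h2
  exact h4 (MeasurableSpace.measurableSet_top (s := {σ}))

end Pool.Agent.helper10.MU
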